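import Pool.Agent.StarkRQ.KleinG.Final

/-!
# Stark's conjecture over real quadratic fields: commutator groups in a Klein four group
-/

set_option autoImplicit false

noncomputable section

open NumberField Module Pool.Agent.StarkRQ Pool.Agent.StarkRQ.Oct
open scoped commutatorElement

namespace Pool.Agent.StarkRQ.KleinG

/-- the case of a commutator subgroup of order two: there is an imaginary quadratic field over which
`M` is abelian, or `H` is totally real. -/
theorem exists_iq {M K : Type} [Field M] [NumberField M] [IsGalois ℚ M]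
    [Field K] [NumberField K] [Algebra K M] [IsTotallyReal K] (hK : finrank ℚ K = 2)
    [IsAbelianGalois K M] {ι : M →+* ℂ} {c : Gal(M/ℚ)} (hc : ∀ x, ι (c x) = starRingEnd ℂ (ι x))
    (hv : ∀ v ∈ commutator Gal(M/ℚ), v * v = 1) (hV : Nat.card (commutator Gal(M/ℚ)) = 2)
    (hz : ∃ b, b ∉ fixG K M ∧ ⁅c, b⁆ ≠ 1) :
    ∃ (k : Type) (_ : Field k) (_ : NumberField k) (_ : Algebra k M), finrank ℚ k = 2 ∧
      IsTotallyComplex k ∧ IsAbelianGalois k M := by
  obtain ⟨b, hb, hz⟩ := hz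
  have hA2 : (fixG K M).index = 2 := fixG_index (M := M) hK
  have hAc : ∀ x ∈ fixG K M, ∀ y ∈ fixG K M, x * y = y * x :=
    fixG_comm fun σ τ : Gal(M/K) => mul_comm' σ τ
  obtain ⟨B, hB, hcB, hBB⟩ := exists_one hA2 hAc hb hv hV hz
  refine ⟨kF B, inferInstance, inferInstance, inferInstance, finrank_kF B hB,
    totallyComplex_kF B hB hc hcB, ?_⟩
  have : IsScalarTower (kF B) M M := inferInstance
  refine isAbelian_of (k := kF B) (L := M) (Ω := M) ?_
  rw [fixG_kF, hBB]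
  exact bot_le

theorem klein_complete {M : Type} [Field M] [NumberField M] [IsGalois ℚ M]
    {K H : Type} [Field K] [NumberField K] [Field H] [NumberField H] [Algebra K M] [Algebra K H]
    [Algebra H M] [IsScalarTower K H M] [IsTotallyReal K] (hK : finrank ℚ K = 2)
    [IsAbelianGalois K M]
    (hv : ∀ v ∈ commutator Gal(M/ℚ), v * v = 1) (hV : Nat.card (commutator Gal(M/ℚ)) ≤ 4)
    (ι : M →+* ℂ) (hH : ∀ y : H, (ι (algebraMap H M y)).im = 0)
    {N : ℕ} (hN2 : 2 ≤ N) (hram : ∀ p : ℕ, p.Prime → (p : ℤ) ∣ discr M → p ∣ N)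
    (ι₂ : K →+* ℝ) (hι₂ : ∃ x : K, ((ι₂ x : ℝ) : ℂ) ≠ ι (algebraMap K M x))
    (hmodH : ∀ a : 𝓞 K, (N : 𝓞 K) ∣ a - 1 → 0 < ι₂ (a : K) →
      HasArtinSymbol (Ideal.span {a}) (1 : Gal(H/K))) :
    ∃ (Z : Gal(H/K) → ℂ → ℂ) (ε : Gal(H/K) → (𝓞 H)ˣ),
      (∀ σ, IsPartialZeta N σ (Z σ) ∧
        ι (algebraMap H M (ε σ : 𝓞 H)) = Complex.exp (-2 * deriv (Z σ) 0)) ∧
      (∀ ρ σ, ρ ((ε σ : 𝓞 H) : H) = ((ε (ρ * σ) : 𝓞 H) : H)) ∧
      ∀ g : H →+* ℂ, (∃ x : K, g (algebraMap K H x) ≠ ι (algebraMap K M x)) →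
        ∀ σ, ‖g ((ε σ : 𝓞 H) : H)‖ = 1 := by
  obtain ⟨c, hc⟩ := exists_cc ι
  by_cases hcase : Nat.card (commutator Gal(M/ℚ)) = 2 ∧ ∃ b, b ∉ fixG K M ∧ ⁅c, b⁆ ≠ 1
  · obtain ⟨k, _, _, _, hk, hkc, hkM⟩ := exists_iq hK hc hv hcase.1 hcase.2
    obtain ⟨Z, ε, h1, h2, -, h4⟩ := shintani_final (k := k) hK hk ι hH hN2 hram ι₂ hι₂ hmodH
    exact ⟨Z, ε, h1, h2, h4⟩
  obtain ⟨f, hf, hf4, hfp, hcond⟩ := exists_cond (M := M) hN2 hram
  have hfn : NeZero f := ⟨by omega⟩
  obtain ⟨E, _, _, _, _⟩ : ∃ (E : Type) (_ : Field E) (_ : NumberField E) (_ : Algebra M E),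
      IsCyclotomicExtension {f} M E :=
    ⟨CyclotomicField f M, inferInstance, IsCyclotomicExtension.numberField {f} M _, inferInstance,
      inferInstance⟩
  let _ : Algebra H E := ((algebraMap M E).comp (algebraMap H M)).toAlgebra
  let _ : Algebra K E := ((algebraMap M E).comp (algebraMap K M)).toAlgebra
  have hKME : IsScalarTower K M E := IsScalarTower.of_algebraMap_eq fun _ => rfl
  have hHME : IsScalarTower H M E := IsScalarTower.of_algebraMap_eq fun _ => rfl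
  have hKHE : IsScalarTower K H E := IsScalarTower.of_algebraMap_eq fun x => by
    change algebraMap M E (algebraMap K M x) = algebraMap M E (algebraMap H M (algebraMap K H x))
    rw [IsScalarTower.algebraMap_apply K H M]
  have hE : IsGalois ℚ E := Pool.Agent.CMG.isGalois_cyclotomic (M := M) (f := f) (by omega)
  obtain ⟨ι', hι'⟩ : ∃ ι' : E →+* ℂ, ∀ x : M, ι' (algebraMap M E x) = ι x := by
    let _ : Algebra M ℂ := ι.toAlgebra
    have : FiniteDimensional M E := FiniteDimensional.right ℚ M E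
    have : Algebra.IsAlgebraic M E := Algebra.IsAlgebraic.of_finite M _
    exact ⟨(IsAlgClosed.lift : E →ₐ[M] ℂ).toRingHom, fun x =>
      (IsAlgClosed.lift : E →ₐ[M] ℂ).commutes x⟩
  have hιH : ∀ y : H, ι' (algebraMap H E y) = ι (algebraMap H M y) := fun y => hι' _
  have hιK : ∀ y : K, ι' (algebraMap K E y) = ι (algebraMap K M y) := fun y => hι' _
  have hζ := IsCyclotomicExtension.zeta_spec f M E
  obtain ⟨Z, ε, h1, h2, h3⟩ := klein_two (M := M) (K := K) (H := H) hf hf4 hK ι'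
    (fun y => by rw [hιH]; exact hH y) hζ (hcond E _ hζ) (fun p hp h => by
      rcases Pool.Agent.CMG.ram_cyclotomic (M := M) (f := f) (by omega) hp h with h1 | h1
      · exact (hfp p hp).2 (hram p hp h1)
      · exact h1) hv hV (fun h c' b hc' hb => by
      have hcc : c' = c := by
        ext x
        apply ι.injective
        rw [hc, ← hι', hc', hι']
      by_contra hne
      exact hcase ⟨h, b, hb, hcc ▸ hne⟩) hN2 hfp ι₂ (by simpa only [hιK] using hι₂) hmodH
  refine ⟨Z, ε, fun σ => ⟨(h1 σ).1, ?_⟩, h2, fun g hg => h3 g (by simpa only [hιK] using hg)⟩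
  rw [← hιH]
  exact (h1 σ).2

end Pool.Agent.StarkRQ.KleinG
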