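import Pool.Agent.StarkRQ.KleinG.CycTwo

/-!
# The level: the maximal abelian subfield of `M(ζ_f)`
-/

set_option autoImplicit false

noncomputable section

open NumberField Pool.Agent.CMR Pool.Agent.CMG Pool.Agent.EMB Pool.Agent.StarkRQ

namespace Pool.Agent.StarkRQ.KleinG

/-- Kronecker-Weber for the maximal abelian subfield of `M`, with values in a cyclotomic field of odd
level -/
theorem kw_gal_odd {M : Type} [Field M] [NumberField M] [IsGalois ℚ M] {N : ℕ} (h2 : ¬ 2 ∣ N)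
    (hram : ∀ p : ℕ, p.Prime → (p : ℤ) ∣ discr M → p ∣ N) (ι₀ : M →ₐ[ℚ] Qb) :
    ∃ a : ℕ, ∀ m : ℕ, a ≤ m → ∀ x : M, (∀ σ τ : Gal(M/ℚ), σ (τ x) = τ (σ x)) →
      ι₀ x ∈ Qm (N ^ m) := by
  classical
  let F : IntermediateField ℚ M := IntermediateField.fixedField (commutator Gal(M/ℚ))
  have hFn : (commutator Gal(M/ℚ)).Normal := inferInstance
  have hFG : IsGalois ℚ F := IsGalois.of_fixedField_normal_subgroup (commutator Gal(M/ℚ))
  have hE : Nf (ι₀.comp F.val).fieldRange N := by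
    refine nf_of_range (M := F) (ι₀.comp F.val) fun p hp h => ?_
    exact hram p hp (h.trans (discr_dvd_discr F M))
  let _ : Algebra M Qb := ι₀.toRingHom.toAlgebra
  have htower : IsScalarTower ℚ M Qb := IsScalarTower.of_algebraMap_eq fun x => (ι₀.commutes x).symm
  have hab : ∀ g h : GQ, Fix (ι₀.comp F.val).fieldRange (g * h * g⁻¹ * h⁻¹) := by
    rintro g h _ ⟨y, rfl⟩
    change (g * h * g⁻¹ * h⁻¹) (ι₀ (y : M)) = ι₀ (y : M)
    have hr : ∀ (s : GQ) (y : M), ι₀ (AlgEquiv.restrictNormalHom M s y) = s (ι₀ y) :=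
      fun s y => AlgEquiv.restrictNormal_commutes s M y
    rw [← hr]
    congr 1
    have h1 : AlgEquiv.restrictNormalHom M (g * h * g⁻¹ * h⁻¹) ∈ commutator Gal(M/ℚ) := by
      rw [map_mul, map_mul, map_mul, map_inv, map_inv, ← commutatorElement_def]
      exact Subgroup.commutator_mem_commutator (Subgroup.mem_top _) (Subgroup.mem_top _)
    exact y.2 ⟨_, h1⟩
  obtain ⟨a, ha⟩ := kw_odd hE hab h2
  refine ⟨a, fun m hm x hx => ?_⟩
  exact ha m hm ⟨⟨x, mem_fixed_commutator.2 hx⟩, rfl⟩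

/-- the level of the ray class fields -/
theorem exists_cond {M : Type} [Field M] [NumberField M] [IsGalois ℚ M] {N : ℕ} (hN : 2 ≤ N)
    (hram : ∀ p : ℕ, p.Prime → (p : ℤ) ∣ discr M → p ∣ N) :
    ∃ f : ℕ, 2 < f ∧ f % 4 ≠ 2 ∧ (∀ p : ℕ, p.Prime → (p ∣ f ↔ p ∣ N)) ∧
      ∀ (E : Type) [Field E] [NumberField E] [Algebra M E] [IsCyclotomicExtension {f} M E] (ζ : E),
        IsPrimitiveRoot ζ f → ∀ x : E, (∀ σ τ : Gal(E/ℚ), σ (τ x) = τ (σ x)) →
          x ∈ IntermediateField.adjoin ℚ {ζ} := by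
  have hN0 : N ≠ 0 := by omega
  by_cases h2 : 2 ∣ N
  · obtain ⟨a, ha, h⟩ := kw_gal (M := M) hN h2 hram
    have hpow : 0 < N ^ a := by positivity
    refine ⟨8 * N ^ a, by omega, by omega, ?_, ?_⟩
    · intro p hp
      rw [hp.dvd_mul]
      constructor
      · rintro (h3 | h3)
        · have h4 : p ∣ 2 := hp.dvd_of_dvd_pow (n := 3) (by norm_num; exact h3)
          exact h4.trans h2
        · exact hp.dvd_of_dvd_pow h3
      · exact fun h3 => Or.inr (h3.trans (dvd_pow_self N (by omega)))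
    · intro E _ _ _ _ ζ hζ
      exact hmax_cyclotomic (M := M) (by omega) hζ fun x hx =>
        kw_mem h (by omega) hN0 dvd_rfl hζ hx
  · have : Algebra.IsAlgebraic ℚ Qb := AlgebraicClosure.isAlgebraic ℚ
    let ι₀ : M →ₐ[ℚ] Qb := IsAlgClosed.lift
    obtain ⟨a, ha⟩ := kw_gal_odd h2 hram ι₀
    obtain ⟨f, hf⟩ : ∃ f, f = N ^ (a + 1) := ⟨_, rfl⟩
    have hf0 : f ≠ 0 := by
      rw [hf]
      positivity
    have hf2 : ¬ 2 ∣ f := by
      rw [hf]
      exact fun h => h2 (Nat.prime_two.dvd_of_dvd_pow h)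
    have hNf : N ≤ f := by
      rw [hf]
      exact Nat.le_self_pow (by omega) N
    refine ⟨f, by omega, by omega, ?_, ?_⟩
    · intro p hp
      rw [hf]
      exact ⟨fun h3 => hp.dvd_of_dvd_pow h3, fun h3 => h3.trans (dvd_pow_self N (by omega))⟩
    · intro E _ _ _ _ ζ hζ
      refine hmax_cyclotomic (M := M) hf0 hζ fun x hx => ?_
      have : NeZero f := ⟨hf0⟩
      let _ : Algebra M Qb := ι₀.toRingHom.toAlgebra
      have : FiniteDimensional M E := FiniteDimensional.right ℚ M E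
      have : Algebra.IsAlgebraic M E := Algebra.IsAlgebraic.of_finite M E
      let j : E →ₐ[M] Qb := IsAlgClosed.lift
      have hξ : IsPrimitiveRoot (j ζ) f := hζ.map_of_injective j.injective
      have h3 := ha (a + 1) (by omega) x hx
      rw [← hf, Qm_eq hξ] at h3
      have h4 : IntermediateField.adjoin ℚ {j ζ} ≤
          (IntermediateField.adjoin ℚ {ζ}).map (j : E →+* Qb).toRatAlgHom := by
        rw [IntermediateField.adjoin_simple_le_iff]
        exact ⟨ζ, IntermediateField.mem_adjoin_simple_self ℚ ζ, rfl⟩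
      obtain ⟨y, hy, hy'⟩ := h4 h3
      have h5 : y = algebraMap M E x := by
        apply j.injective
        exact hy'.trans (j.commutes x).symm
      rw [← h5]
      exact hy

end Pool.Agent.StarkRQ.KleinG
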