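import Pool.Agent.EMB.KWb
import Pool.Agent.EMB.Nfl

/-!
# Kronecker-Weber at an odd level

`iner_two`: the automorphisms of `ℚ(ζ_n)`, `n = 2^s m`, `m` odd, which fix the `m`-th roots of unity are
in the inertia groups of the primes over `2`. `kw_odd`: an abelian field unramified outside the odd
number `N` is contained in `ℚ(ζ_(N^m))`.
-/

set_option autoImplicit false

noncomputable section

open NumberField Pool.Agent.CMR Pool.Agent.EMB

namespace Pool.Agent.StarkRQ.KleinG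

theorem iner_two {n s m : ℕ} (hn : n = 2 ^ s * m) (hm : ¬ 2 ∣ m) {F : Type} [Field F]
    [NumberField F] [IsCyclotomicExtension {n} ℚ F] {Q : Ideal (𝓞 F)} (hQ : Q.IsPrime)
    (h2 : ((2 : ℕ) : 𝓞 F) ∈ Q) {σ : Gal(F/ℚ)} (hσ : ∀ x : F, x ^ m = 1 → σ x = x) : Iner Q σ := by
  have hm0 : m ≠ 0 := by
    rintro rfl
    exact hm (dvd_zero 2)
  have hn0 : n ≠ 0 := by
    rw [hn]
    positivity
  have : NeZero n := ⟨hn0⟩
  have hcyc : IsCyclotomicExtension {n} ℤ (𝓞 F) := inferInstance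
  -- the roots of unity of order a power of two
  have hone : ∀ b : 𝓞 F, b ^ 2 ^ s = 1 → b - 1 ∈ Q := by
    intro b hb
    have h3 : (b - 1) ^ 2 ^ s - (b ^ 2 ^ s - 1 ^ 2 ^ s) ∈ Q := by
      obtain ⟨r, hr⟩ := exists_add_pow_prime_pow_eq Nat.prime_two (b - 1) 1 s
      rw [sub_add_cancel, hb, one_pow] at hr
      have h4 : (b - 1) ^ 2 ^ s - (b ^ 2 ^ s - 1 ^ 2 ^ s) = -(((2 : ℕ) : 𝓞 F) * ((b - 1) * 1 * r)) +
          (1 - 1) := by
        rw [hb, one_pow]
        linear_combination -hr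
      rw [h4, sub_self, add_zero]
      exact Q.neg_mem (Q.mul_mem_right _ h2)
    rw [hb, one_pow, sub_self, sub_zero] at h3
    exact hQ.mem_of_pow_mem _ h3
  -- the roots of unity
  have hroot : ∀ b : 𝓞 F, b ^ n = 1 → σ • b - b ∈ Q := by
    intro b hb
    have hcop : Nat.Coprime (2 ^ s) m :=
      Nat.Coprime.pow_left _ ((Nat.Prime.coprime_iff_not_dvd Nat.prime_two).2 hm)
    obtain ⟨k, hk1, hk2⟩ := Nat.chineseRemainder hcop 1 0
    obtain ⟨l, hl1, hl2⟩ := Nat.chineseRemainder hcop 0 1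
    have hkl : k + l ≡ 1 [MOD n] := by
      rw [hn]
      exact (Nat.modEq_and_modEq_iff_modEq_mul hcop).1 ⟨hk1.add hl1, hk2.add hl2⟩
    have hbb : b = b ^ k * b ^ l := by
      rw [← pow_add]
      nth_rewrite 1 [← pow_one b]
      exact (pow_eq_pow_of_modEq hkl hb).symm
    have hb1 : (b ^ k) ^ 2 ^ s = 1 := by
      obtain ⟨j, hj⟩ := (Nat.modEq_zero_iff_dvd).1 hk2
      rw [← pow_mul, hj, show m * j * 2 ^ s = n * j by rw [hn]; ring, pow_mul, hb, one_pow]
    have hb2 : (b ^ l) ^ m = 1 := by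
      obtain ⟨j, hj⟩ := (Nat.modEq_zero_iff_dvd).1 hl1
      rw [← pow_mul, hj, show 2 ^ s * j * m = n * j by rw [hn]; ring, pow_mul, hb, one_pow]
    have hb3 : (σ • b ^ k) ^ 2 ^ s = 1 := by
      rw [← smul_pow', hb1, smul_one]
    have hb4 : σ • b ^ l = b ^ l := by
      apply RingOfIntegers.ext
      change σ ((b ^ l : 𝓞 F) : F) = _
      exact hσ _ (congrArg RingOfIntegers.val hb2)
    rw [hbb, smul_mul', hb4, ← sub_mul, show σ • b ^ k - b ^ k = (σ • b ^ k - 1) - (b ^ k - 1) by ring]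
    exact Q.mul_mem_right _ (Q.sub_mem (hone _ hb3) (hone _ hb1))
  intro x
  have hx := hcyc.adjoin_roots x
  induction hx using Algebra.adjoin_induction with
  | mem b hb =>
    obtain ⟨k, hk, -, hb⟩ := hb
    rw [Set.mem_singleton_iff] at hk
    rw [hk] at hb
    exact hroot b hb
  | algebraMap r =>
    have h4 : σ • (algebraMap ℤ (𝓞 F) r) = algebraMap ℤ (𝓞 F) r := by
      apply RingOfIntegers.ext
      change σ ((algebraMap ℤ (𝓞 F) r : 𝓞 F) : F) = _
      simp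
    rw [h4, sub_self]
    exact Q.zero_mem
  | add x y _ _ hx hy =>
    rw [smul_add, show σ • x + σ • y - (x + y) = (σ • x - x) + (σ • y - y) by ring]
    exact Q.add_mem hx hy
  | mul x y _ _ hx hy =>
    rw [smul_mul', show (σ • x) * (σ • y) - x * y = (σ • x - x) * (σ • y) + x * (σ • y - y) by ring]
    exact Q.add_mem (Q.mul_mem_right _ hx) (Q.mul_mem_left _ hy)

theorem Qm_eq {n : ℕ} [NeZero n] {ξ : Qb} (hξ : IsPrimitiveRoot ξ n) :
    Qm n = IntermediateField.adjoin ℚ {ξ} := by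
  apply le_antisymm
  · rw [Qm, IntermediateField.adjoin_le_iff]
    intro ζ hζ
    obtain ⟨i, -, rfl⟩ := hξ.eq_pow_of_pow_eq_one hζ
    exact pow_mem (IntermediateField.subset_adjoin ℚ _ (Set.mem_singleton ξ)) i
  · exact IntermediateField.adjoin_simple_le_iff.2
      (IntermediateField.subset_adjoin ℚ _ hξ.pow_eq_one)

/-- Kronecker-Weber for odd `N` -/
theorem kw_odd {E : IntermediateField ℚ Qb} {N : ℕ} (hE : Nf E N)
    (hab : ∀ g h : GQ, Fix E (g * h * g⁻¹ * h⁻¹)) (h2 : ¬ 2 ∣ N) :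
    ∃ a : ℕ, ∀ m : ℕ, a ≤ m → E ≤ Qm (N ^ m) := by
  have hN : N ≠ 0 := by
    rintro rfl
    exact h2 (dvd_zero 2)
  obtain ⟨a, ha⟩ := kw (hE.mono fun p _ hp => hp.mul_left 2) hab (Dvd.intro N rfl)
    (mul_ne_zero two_ne_zero hN)
  refine ⟨a, fun m hm => ?_⟩
  have hle := ha m hm
  obtain ⟨n, hn⟩ : ∃ n, n = (2 * N) ^ m := ⟨_, rfl⟩
  have hn' : n = 2 ^ m * N ^ m := by rw [hn, mul_pow]
  rw [← hn] at hle
  have hn0 : n ≠ 0 := by
    rw [hn]
    positivity
  have : NeZero n := ⟨hn0⟩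
  have hF := nf_Qm hn0
  have hF1 := hF.fin
  have hF2 := hF.gal
  have hF3 : NumberField (Qm n) := numberField_of_fin hF1
  obtain ⟨ξ, hξ⟩ := HasEnoughRootsOfUnity.exists_primitiveRoot Qb n
  have hcyc : IsCyclotomicExtension {n} ℚ (Qm n) := by
    have : Algebra.IsAlgebraic ℚ Qb := AlgebraicClosure.isAlgebraic ℚ
    have : Algebra.IsIntegral ℚ Qb := Algebra.IsAlgebraic.isIntegral
    rw [Qm_eq hξ]
    exact hξ.intermediateField_adjoin_isCyclotomicExtension ℚ
  obtain ⟨Q, hQ, h2Q⟩ := exists_prime_over (M := Qm n) Nat.prime_two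
  refine le_of_fix fun g hg x hx => ?_
  have h3 : Iner Q (AlgEquiv.restrictNormalHom (Qm n) g : Gal(Qm n/ℚ)) := by
    refine iner_two (n := n) hn' (m := N ^ m) (fun h => h2 (Nat.prime_two.dvd_of_dvd_pow h)) hQ h2Q
      fun y hy => ?_
    apply Subtype.val_injective
    rw [Pool.Agent.EMB.restrict_apply]
    refine hg _ (IntermediateField.subset_adjoin ℚ _ ?_)
    exact congrArg Subtype.val hy
  have h4 := hE.iner_fix hle Nat.prime_two h2 hQ h2Q h3 ⟨x, hle hx⟩ hx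
  have h5 := congrArg Subtype.val h4
  rw [Pool.Agent.EMB.restrict_apply] at h5
  exact h5

end Pool.Agent.StarkRQ.KleinG
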