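import Pool.Agent.StarkRQ.KleinG.Group
import Pool.Agent.StarkRQ.Oct.Inst
import Pool.Agent.CMH.KleinW
import Pool.Agent.CMR.RMain

/-!
# The Klein four case for a field whose maximal abelian subfield is cyclotomic
-/

set_option autoImplicit false

noncomputable section

open NumberField Module Pool.Agent.StarkRQ Pool.Agent.StarkRQ.Oct
open scoped commutatorElement

namespace Pool.Agent.StarkRQ.KleinG

/-- the fixing subgroup of `ℚ(ζ)` -/
theorem mem_comm_of_fix {E : Type} [Field E] [NumberField E] [IsGalois ℚ E] {ζ : E}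
    (hmax : ∀ x : E, (∀ σ τ : Gal(E/ℚ), σ (τ x) = τ (σ x)) → x ∈ IntermediateField.adjoin ℚ {ζ})
    {g : Gal(E/ℚ)} (hg : g ζ = ζ) : g ∈ commutator Gal(E/ℚ) := by
  rw [← IntermediateField.fixingSubgroup_fixedField (commutator Gal(E/ℚ)),
    IntermediateField.mem_fixingSubgroup_iff]
  intro x hx
  have h1 : x ∈ IntermediateField.adjoin ℚ {ζ} := hmax x (by
    intro σ τ
    have h1 : ⁅σ⁻¹, τ⁻¹⁆ ∈ commutator Gal(E/ℚ) :=
      Subgroup.commutator_mem_commutator (Subgroup.mem_top _) (Subgroup.mem_top _)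
    have h2 : ⁅σ⁻¹, τ⁻¹⁆ x = x := hx ⟨_, h1⟩
    have h3 : (τ * σ) * ⁅σ⁻¹, τ⁻¹⁆ = σ * τ := by
      rw [commutatorElement_def]
      group
    have h4 := congrArg (fun g : Gal(E/ℚ) => g x) h3
    simp only [AlgEquiv.mul_apply] at h4
    rw [h2] at h4
    exact h4.symm)
  have h2 : IntermediateField.adjoin ℚ {ζ} ≤
      IntermediateField.fixedField (Subgroup.zpowers g) := by
    rw [IntermediateField.adjoin_simple_le_iff, IntermediateField.mem_fixedField_iff]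
    intro s hs
    have h3 : Subgroup.zpowers g ≤ MulAction.stabilizer Gal(E/ℚ) ζ := by
      rw [Subgroup.zpowers_le]
      exact hg
    exact h3 hs
  exact (IntermediateField.mem_fixedField_iff _ _).1 (h2 h1) g (Subgroup.mem_zpowers g)

theorem comm_fix {E : Type} [Field E] [NumberField E] [IsGalois ℚ E] {f : ℕ} [NeZero f] {ζ : E}
    (hζ : IsPrimitiveRoot ζ f) {g : Gal(E/ℚ)} (hg : g ∈ commutator Gal(E/ℚ)) : g ζ = ζ := by
  have h1 : hζ.autToPow ℚ g = 1 :=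
    (Abelianization.commutator_subset_ker (hζ.autToPow ℚ)) hg
  have h2 := hζ.autToPow_spec ℚ g
  rw [h1, Units.val_one, ZMod.val_one_eq_one_mod] at h2
  rw [hζ.eq_orderOf, pow_mod_orderOf, pow_one] at h2
  exact h2.symm

theorem finrank_eq {E : Type} [Field E] [NumberField E] [IsGalois ℚ E] {f : ℕ} [NeZero f] {ζ : E}
    (hζ : IsPrimitiveRoot ζ f)
    (hmax : ∀ x : E, (∀ σ τ : Gal(E/ℚ), σ (τ x) = τ (σ x)) → x ∈ IntermediateField.adjoin ℚ {ζ}) :
    finrank ℚ E = Nat.card (commutator Gal(E/ℚ)) * f.totient := by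
  have hF : IntermediateField.fixedField (commutator Gal(E/ℚ)) =
      IntermediateField.adjoin ℚ {ζ} := by
    rw [← IsGalois.fixedField_fixingSubgroup (IntermediateField.adjoin ℚ {ζ})]
    congr 1
    ext g
    rw [IntermediateField.mem_fixingSubgroup_iff]
    constructor
    · intro hg x hx
      have h2 : IntermediateField.adjoin ℚ {ζ} ≤
          IntermediateField.fixedField (commutator Gal(E/ℚ)) := by
        rw [IntermediateField.adjoin_simple_le_iff, IntermediateField.mem_fixedField_iff]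
        exact fun s hs => comm_fix hζ hs
      exact (IntermediateField.mem_fixedField_iff _ _).1 (h2 hx) g hg
    · intro hg
      exact mem_comm_of_fix hmax (hg ζ (IntermediateField.mem_adjoin_simple_self ℚ ζ))
  have h1 : finrank ℚ (IntermediateField.adjoin ℚ {ζ}) = Nat.totient f := by
    rw [IntermediateField.adjoin.finrank (hζ.isIntegral (NeZero.pos f)).tower_top,
      ← Polynomial.cyclotomic_eq_minpoly_rat hζ (NeZero.pos f), Polynomial.natDegree_cyclotomic]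
  have h2 := finrank_mul_finrank ℚ (IntermediateField.adjoin ℚ {ζ}) E
  have h3 := IntermediateField.finrank_fixedField_eq_card (commutator Gal(E/ℚ))
  rw [hF] at h3
  rw [← h2, h1, h3, mul_comm]

/-- the data of one imaginary quadratic field -/
theorem one_field {E : Type} [Field E] [NumberField E] [IsGalois ℚ E] {f : ℕ} (hf : 2 < f) {ζ : E}
    (hζ : IsPrimitiveRoot ζ f)
    (hmax : ∀ x : E, (∀ σ τ : Gal(E/ℚ), σ (τ x) = τ (σ x)) → x ∈ IntermediateField.adjoin ℚ {ζ})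
    (hram : ∀ p : ℕ, p.Prime → (p : ℤ) ∣ discr E → p ∣ f)
    (hV : Nat.card (commutator Gal(E/ℚ)) = 4) (hpp : ¬ IsPrimePow f) {c : Gal(E/ℚ)} {ι : E →+* ℂ}
    (hc : ∀ x, ι (c x) = starRingEnd ℂ (ι x)) (B : Subgroup Gal(E/ℚ)) [B.Normal] (hB : B.index = 2)
    (hcB : c ∉ B) (hBB : Nat.card (⁅B, B⁆ : Subgroup Gal(E/ℚ)) = 2) :
    finrank ℚ (kF B) = 2 ∧ IsTotallyComplex (kF B) ∧ finrank ℚ (LF B) = 2 * f.totient ∧
      ζ ∈ (algebraMap (LF B) E).range ∧ ∃ η : (𝓞 (LF B))ˣ, IsStarkUnit (kF B)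
        (ι.comp (algebraMap (LF B) E)) f (algebraMap (𝓞 (LF B)) (LF B) η) := by
  have : NeZero f := ⟨by omega⟩
  have hBV : (⁅B, B⁆ : Subgroup Gal(E/ℚ)) ≤ commutator Gal(E/ℚ) :=
    Subgroup.commutator_mono le_top le_top
  refine ⟨finrank_kF B hB, totallyComplex_kF B hB hc hcB, ?_, ?_, ?_⟩
  · rw [finrank_eq_index (Ω := E), fixG_LF]
    have h1 := Subgroup.card_mul_index (⁅B, B⁆ : Subgroup Gal(E/ℚ))
    rw [hBB, IsGalois.card_aut_eq_finrank, finrank_eq hζ hmax, hV] at h1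
    omega
  · have h1 : ζ ∈ IntermediateField.fixedField (⁅B, B⁆ : Subgroup Gal(E/ℚ)) := by
      rw [IntermediateField.mem_fixedField_iff]
      exact fun g hg => comm_fix hζ (hBV hg)
    exact ⟨(⟨ζ, h1⟩ : ↥(IntermediateField.fixedField (⁅B, B⁆ : Subgroup Gal(E/ℚ)))), rfl⟩
  · obtain ⟨η, hη, hη'⟩ := Pool.Agent.CMR.exists_stark (k := kF B) (M := LF B) (N := f)
      ⟨finrank_kF B hB, totallyComplex_kF B hB hc hcB⟩ (by omega)
      (ι.comp (algebraMap (LF B) E))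
      (fun p hp h => hram p hp (h.trans (discr_dvd_discr (LF B) E)))
    obtain ⟨h1, h2⟩ := hη' hpp
    refine ⟨⟨⟨η, h1⟩, ⟨η⁻¹, h2⟩, ?_, ?_⟩, hη⟩
    · apply RingOfIntegers.ext
      change η * η⁻¹ = 1
      exact mul_inv_cancel₀ hη.ne_zero
    · apply RingOfIntegers.ext
      change η⁻¹ * η = 1
      exact inv_mul_cancel₀ hη.ne_zero

theorem klein_level {E : Type} [Field E] [NumberField E] [IsGalois ℚ E] {K H : Type} [Field K]
    [NumberField K] [Field H] [NumberField H] [Algebra K E] [Algebra K H] [Algebra H E]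
    [IsScalarTower K H E] [IsTotallyReal K] (hK : finrank ℚ K = 2) [IsAbelianGalois K E]
    (ι : E →+* ℂ) (hH : ∀ y : H, (ι (algebraMap H E y)).im = 0)
    {f : ℕ} (hf : 2 < f) (hf4 : f % 4 ≠ 2) {ζ : E} (hζ : IsPrimitiveRoot ζ f)
    (hmax : ∀ x : E, (∀ σ τ : Gal(E/ℚ), σ (τ x) = τ (σ x)) → x ∈ IntermediateField.adjoin ℚ {ζ})
    (hram : ∀ p : ℕ, p.Prime → (p : ℤ) ∣ discr E → p ∣ f)
    (hv : ∀ v ∈ commutator Gal(E/ℚ), v * v = 1) (hV : Nat.card (commutator Gal(E/ℚ)) = 4)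
    {b c : Gal(E/ℚ)} (hc : ∀ x, ι (c x) = starRingEnd ℂ (ι x)) (hb : b ∉ fixG K E)
    (hz : ⁅c, b⁆ ≠ 1) :
    ∃ (R : Gal(H/K)) (W : Gal(H/K) → ℂ → ℂ),
      (∀ σ, IsCont (fun n => (zcoeff f σ n : ℂ) - zcoeff f (R * σ) n) (W σ)) ∧
      ∃ ε : Gal(H/K) → (𝓞 H)ˣ,
      (∀ σ, ι (algebraMap H E (ε σ : 𝓞 H)) = Complex.exp (-deriv (W σ) 0)) ∧
      (∀ ρ σ, ρ ((ε σ : 𝓞 H) : H) = ((ε (ρ * σ) : 𝓞 H) : H)) ∧
      ∀ g : H →+* ℂ, (∃ x : K, g (algebraMap K H x) ≠ ι (algebraMap K E x)) →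
        (∀ y, g (R y) = starRingEnd ℂ (g y)) ∧ ∀ σ, ‖g ((ε σ : 𝓞 H) : H)‖ = 1 := by
  have hf0 : NeZero f := ⟨by omega⟩
  have hA2 : (fixG K E).index = 2 := fixG_index (M := E) hK
  have hAc : ∀ x ∈ fixG K E, ∀ y ∈ fixG K E, x * y = y * x :=
    fixG_comm fun σ τ : Gal(E/K) => mul_comm' σ τ
  have hcA : c ∈ fixG K E := cc_mem_fixG hc
  obtain ⟨B₁, B₂, hB₁, hB₂, hcB₁, hcB₂, hbB₁, hbB₂, hBB₁, hBB₂, hBne, hVB₁, hVB₂, a, haA, haB₁,
    haB₂⟩ := exists_two hA2 hAc hb hv hV hz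
  have hn₁ : B₁.Normal := Subgroup.normal_of_index_eq_two hB₁
  have hn₂ : B₂.Normal := Subgroup.normal_of_index_eq_two hB₂
  have hVA : commutator Gal(E/ℚ) ≤ fixG K E := comm_le hA2 hAc hb
  have hpp : ¬ IsPrimePow f := by
    have hfix : ∀ g : Gal(E/ℚ), g ∈ (hζ.autToPow ℚ).ker → g ∈ commutator Gal(E/ℚ) := by
      intro g hg
      apply mem_comm_of_fix hmax
      rw [MonoidHom.mem_ker] at hg
      have h1 := hζ.autToPow_spec ℚ g
      rw [hg] at h1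
      have : Fact (1 < f) := ⟨by omega⟩
      rw [Units.val_one, ZMod.val_one, pow_one] at h1
      exact h1.symm
    exact exists_three (hζ.autToPow ℚ) (chi_surjective hζ) (fixG K E) B₁ B₂ hA2 hB₁ hB₂
      (fun g hg => hVA (hfix g hg)) (fun g hg => hVB₁ (hfix g hg)) (fun g hg => hVB₂ (hfix g hg))
      (a := a) (b := b) (c := c) haA haB₁ haB₂ hb hbB₁ hbB₂ hcA hcB₁
  obtain ⟨hk₁, hcx₁, hdeg₁, hζ₁, η₁, hη₁⟩ :=
    one_field hf hζ hmax hram hV hpp hc B₁ hB₁ hcB₁ hBB₁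
  obtain ⟨hk₂, hcx₂, hdeg₂, hζ₂, η₂, hη₂⟩ :=
    one_field hf hζ hmax hram hV hpp hc B₂ hB₂ hcB₂ hBB₂
  have hle : ∀ B : Subgroup Gal(E/ℚ), fixG (LF B) E ≤ fixG K E := by
    intro B
    rw [fixG_LF]
    exact (Subgroup.commutator_mono le_top le_top).trans hVA
  obtain ⟨_, hT₁⟩ := exists_alg (F := K) (E := LF B₁) (hle B₁)
  obtain ⟨_, hT₂⟩ := exists_alg (F := K) (E := LF B₂) (hle B₂)
  refine klein_cont (K := K) (H := H) (k₁ := kF B₁) (k₂ := kF B₂) (M₁ := LF B₁) (M₂ := LF B₂) hK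
    hk₁ hk₂ hf hf4 hζ hmax (by rw [finrank_eq hζ hmax, hV]) hdeg₁ hdeg₂ hζ₁ hζ₂ ?_ hram ι hH
    η₁ hη₁ η₂ hη₂
  intro h
  apply hBne
  rw [← fixG_LF B₁, ← fixG_LF B₂]
  have key : ∀ {F F' : Type} [Field F] [NumberField F] [Field F'] [NumberField F'] [Algebra F E]
      [Algebra F' E], (algebraMap F E).range ≤ (algebraMap F' E).range →
      fixG F' E ≤ fixG F E := by
    intro F F' _ _ _ _ _ _ h g hg
    rw [mem_fixG] at hg ⊢
    intro x
    obtain ⟨y, hy⟩ := h ⟨x, rfl⟩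
    rw [← hy]
    exact hg y
  exact le_antisymm (key h.ge) (key h.le)

end Pool.Agent.StarkRQ.KleinG
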