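import Pool.Agent.StarkRQ.KleinG.Field
import Pool.Agent.StarkRQ.KleinG.Cond
import Pool.Agent.StarkRQ.ShintaniLit2
import Pool.Agent.HeckeRQ.Literal
import Pool.Agent.HeckeRQ.Conj
import Pool.Agent.StarkRQ.Cyclo

/-!
# Stark's conjecture over real quadratic fields: commutator groups in a Klein four group
-/

set_option autoImplicit false

noncomputable section

open NumberField Module Pool.Agent.StarkRQ Pool.Agent.StarkRQ.Oct
open scoped commutatorElement

namespace Pool.Agent.StarkRQ.KleinG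

section

variable {M E : Type} [Field M] [NumberField M] [IsGalois ℚ M] [Field E] [NumberField E]
    [IsGalois ℚ E] [Algebra M E] {f : ℕ} [IsCyclotomicExtension {f} M E]

/-- the commutator subgroups of `Gal(M(ζ_f)/ℚ)` and of `Gal(M/ℚ)` are isomorphic. -/
theorem card_comm_eq (hf : f ≠ 0) :
    Nat.card (commutator Gal(E/ℚ)) = Nat.card (commutator Gal(M/ℚ)) ∧
      ((∀ v ∈ commutator Gal(M/ℚ), v * v = 1) → ∀ v ∈ commutator Gal(E/ℚ), v * v = 1) ∧
      ∀ v ∈ commutator Gal(E/ℚ), AlgEquiv.restrictNormalHom M v = (1 : Gal(M/ℚ)) → v = 1 := by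
  have hfn : NeZero f := ⟨hf⟩
  have hζ := IsCyclotomicExtension.zeta_spec f M E
  let r : Gal(E/ℚ) →* Gal(M/ℚ) := AlgEquiv.restrictNormalHom M
  have hr : ∀ (s : Gal(E/ℚ)) (y : M), algebraMap M E (r s y) = s (algebraMap M E y) :=
    fun s y => AlgEquiv.restrictNormal_commutes s M y
  have h2 : (commutator Gal(E/ℚ)).map r = commutator Gal(M/ℚ) := by
    rw [commutator_def, commutator_def, Subgroup.map_commutator,
      Subgroup.map_top_of_surjective r (AlgEquiv.restrictNormalHom_surjective E)]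
  have h3 : ∀ v ∈ commutator Gal(E/ℚ), r v = 1 → v = 1 := by
    intro v hv hv1
    refine Pool.Agent.EMB.eq_one_of_fix (M := M) hζ v (fun x => ?_) (comm_fix hζ hv)
    rw [← hr, hv1, AlgEquiv.one_apply]
  refine ⟨?_, ?_, h3⟩
  · have hinj : Set.InjOn r (commutator Gal(E/ℚ) : Set Gal(E/ℚ)) := by
      intro v hv w hw h
      have h4 := h3 (v * w⁻¹) (Subgroup.mul_mem _ hv (Subgroup.inv_mem _ hw))
        (by rw [map_mul, map_inv, h, mul_inv_cancel])
      exact mul_inv_eq_one.1 h4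
    have h4 := hinj.ncard_image
    rw [← Subgroup.coe_map, h2] at h4
    exact h4.symm
  · intro h v hv
    refine h3 _ (Subgroup.mul_mem _ hv hv) ?_
    rw [map_mul]
    refine h _ ?_
    rw [← h2]
    exact ⟨v, hv, rfl⟩

end

theorem klein_two {M E : Type} [Field M] [NumberField M] [IsGalois ℚ M] [Field E]
    [NumberField E] [IsGalois ℚ E] {f : ℕ} (hf : 2 < f) (hf4 : f % 4 ≠ 2)
    {K H : Type} [Field K] [NumberField K] [Field H] [NumberField H] [Algebra K M] [Algebra K H]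
    [Algebra H M] [IsScalarTower K H M] [Algebra M E] [Algebra K E] [Algebra H E]
    [IsScalarTower K M E] [IsScalarTower H M E] [IsScalarTower K H E]
    [IsCyclotomicExtension {f} M E] [IsTotallyReal K] (hK : finrank ℚ K = 2) [IsAbelianGalois K M]
    (ι : E →+* ℂ) (hH : ∀ y : H, (ι (algebraMap H E y)).im = 0)
    {ζ : E} (hζ : IsPrimitiveRoot ζ f)
    (hmax : ∀ x : E, (∀ σ τ : Gal(E/ℚ), σ (τ x) = τ (σ x)) → x ∈ IntermediateField.adjoin ℚ {ζ})
    (hram : ∀ p : ℕ, p.Prime → (p : ℤ) ∣ discr E → p ∣ f)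
    (hv : ∀ v ∈ commutator Gal(M/ℚ), v * v = 1) (hV : Nat.card (commutator Gal(M/ℚ)) ≤ 4)
    (hV2 : Nat.card (commutator Gal(M/ℚ)) = 2 → ∀ c b : Gal(M/ℚ),
      (∀ x, ι (algebraMap M E (c x)) = starRingEnd ℂ (ι (algebraMap M E x))) → b ∉ fixG K M →
      ⁅c, b⁆ = 1)
    {N : ℕ} (hN2 : 2 ≤ N) (hNp : ∀ p : ℕ, p.Prime → (p ∣ f ↔ p ∣ N))
    (ι₂ : K →+* ℝ) (hι₂ : ∃ x : K, ((ι₂ x : ℝ) : ℂ) ≠ ι (algebraMap K E x))
    (hmodH : ∀ a : 𝓞 K, (N : 𝓞 K) ∣ a - 1 → 0 < ι₂ (a : K) →
      HasArtinSymbol (Ideal.span {a}) (1 : Gal(H/K))) :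
    ∃ (Z : Gal(H/K) → ℂ → ℂ) (ε : Gal(H/K) → (𝓞 H)ˣ),
      (∀ σ, IsPartialZeta N σ (Z σ) ∧
        ι (algebraMap H E (ε σ : 𝓞 H)) = Complex.exp (-2 * deriv (Z σ) 0)) ∧
      (∀ ρ σ, ρ ((ε σ : 𝓞 H) : H) = ((ε (ρ * σ) : 𝓞 H) : H)) ∧
      ∀ g : H →+* ℂ, (∃ x : K, g (algebraMap K H x) ≠ ι (algebraMap K E x)) →
        ∀ σ, ‖g ((ε σ : 𝓞 H) : H)‖ = 1 := by
  have hf0 : NeZero f := ⟨by omega⟩
  have habE : IsAbelianGalois K E := isAbelianGalois_cyclotomic K M f E
  have habH : IsAbelianGalois K H := IsAbelianGalois.tower_bot K H M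
  have hKE : ∀ x : K, ι (algebraMap H E (algebraMap K H x)) = ι (algebraMap K E x) := fun x => by
    rw [← IsScalarTower.algebraMap_apply K H E]
  -- the level `N f`
  obtain ⟨N', hN'⟩ : ∃ N', N' = N * f := ⟨_, rfl⟩
  have hNN' : N ∣ N' := hN' ▸ Dvd.intro f rfl
  have hfN' : f ∣ N' := hN' ▸ Dvd.intro_left N rfl
  have hN'3 : 3 ≤ N' := by nlinarith
  have hN'p : ∀ p : ℕ, p.Prime → (p ∣ N' ↔ p ∣ N) := by
    intro p hp
    rw [hN', hp.dvd_mul, hNp p hp, or_self]
  have hramH : ∀ p : ℕ, p.Prime → (p : ℤ) ∣ discr H → p ∣ N' := fun p hp' h =>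
    (hram p hp' (h.trans (discr_dvd_discr H E))).trans hfN'
  obtain ⟨G, hG, hG'⟩ := HeckeRQ.literal (K := K) (H := H) hK (ι.comp (algebraMap H E)) hH
    (ι₂ := ι₂) (by
      obtain ⟨x, hx⟩ := hι₂
      exact ⟨x, by rw [RingHom.comp_apply, hKE]; exact hx⟩) hN'3 hramH
    (fun α h1 h2 => hmodH α ((Nat.cast_dvd_cast hNN').trans h1) h2)
    (fun R' hR' g hg y => HeckeRQ.artin_conj (M := E) hK ι hH (by omega) hζ hmax hram
      (by omega) ι₂ hι₂ hR' (by
      obtain ⟨x, hx⟩ := hg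
      exact ⟨x, by rw [RingHom.comp_apply, hKE] at hx; exact hx⟩) y)
  have hGN : ∀ σ, IsPartialZeta N σ (G σ) := fun σ => CMR.isPartialZeta_congr hN'p (hG σ)
  -- complex conjugation
  obtain ⟨c, hc⟩ := exists_cc ι
  by_cases hz : ∀ b : Gal(E/ℚ), b ∉ fixG K E → ⁅c, b⁆ = 1
  · -- `H` is totally real
    have hcom : ∀ g : Gal(E/ℚ), c * g = g * c := by
      intro g
      by_cases hg : g ∈ fixG K E
      · exact fixG_comm (fun σ τ : Gal(E/K) => mul_comm' σ τ) c (cc_mem_fixG hc) g hg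
      · exact commutatorElement_eq_one_iff_mul_comm.1 (hz g hg)
    have hreal : ∀ (g : H →+* ℂ) (y : H), starRingEnd ℂ (g y) = g y := by
      intro g y
      obtain ⟨γ, hγ⟩ : ∃ γ : Gal(E/ℚ), ∀ y : H, g y = ι (γ (algebraMap H E y)) := by
        let _ : Algebra H ℂ := g.toAlgebra
        have : FiniteDimensional H E := FiniteDimensional.right ℚ H E
        have : Algebra.IsAlgebraic H E := Algebra.IsAlgebraic.of_finite H E
        obtain ⟨γ, hγ⟩ := exists_comp ι (IsAlgClosed.lift : E →ₐ[H] ℂ).toRingHom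
        refine ⟨γ, fun y => ?_⟩
        rw [← hγ]
        exact ((IsAlgClosed.lift : E →ₐ[H] ℂ).commutes y).symm
      rw [hγ, ← hc]
      congr 1
      have h1 : c (algebraMap H E y) = algebraMap H E y := by
        apply ι.injective
        rw [hc]
        exact Complex.conj_eq_iff_im.2 (hH y)
      change (c * γ) (algebraMap H E y) = _
      rw [hcom]
      change γ (c (algebraMap H E y)) = _
      rw [h1]
    have h0 := hG' 1 (fun g _ y => by
      rw [hreal]
      rfl)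
    refine ⟨G, fun _ => 1, fun σ => ⟨hGN σ, ?_⟩, fun ρ σ => by simp, fun g _ σ => by simp⟩
    have h1 := (h0 σ).2
    rw [one_mul] at h1
    have h2 : deriv (G σ) 0 = 0 := by
      have h3 : (2 : ℂ) * deriv (G σ) 0 = 0 := by rw [two_mul]; exact h1
      simpa using h3
    rw [h2]
    simp
  · push Not at hz
    obtain ⟨b, hb, hz⟩ := hz
    obtain ⟨hcard, hexp, hinj⟩ := card_comm_eq (M := M) (E := E) (f := f) (by omega)
    have hvE := hexp hv
    have hVE : Nat.card (commutator Gal(E/ℚ)) = 4 := by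
      rcases card_comm hvE (by rw [hcard]; exact hV) with h | h | h
      · exfalso
        apply hz
        have h1 : ⁅c, b⁆ ∈ commutator Gal(E/ℚ) :=
          Subgroup.commutator_mem_commutator (Subgroup.mem_top _) (Subgroup.mem_top _)
        rw [Subgroup.card_eq_one] at h
        rw [h] at h1
        exact h1
      · exfalso
        apply hz
        have hr : ∀ (s : Gal(E/ℚ)) (y : M), algebraMap M E (AlgEquiv.restrictNormalHom M s y) =
            s (algebraMap M E y) := fun s y => AlgEquiv.restrictNormal_commutes s M y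
        refine hinj _ (Subgroup.commutator_mem_commutator (Subgroup.mem_top _)
          (Subgroup.mem_top _)) ?_
        rw [commutatorElement_def, map_mul, map_mul, map_mul, map_inv, map_inv,
          ← commutatorElement_def]
        refine hV2 (hcard ▸ h) _ _ (fun x => by rw [hr, hc]) fun hbM => hb ?_
        rw [mem_fixG] at hbM ⊢
        intro x
        rw [IsScalarTower.algebraMap_apply K M E, ← hr, hbM]
      · exact h
    obtain ⟨R, W, hW, ε, h1, h2, h3⟩ := klein_level (K := K) (H := H) hK ι hH hf hf4 hζ hmax hram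
      hvE hVE hc hb hz
    have hGf : ∀ σ, IsPartialZeta f σ (G σ) := fun σ =>
      CMR.isPartialZeta_congr (fun p hp => (hN'p p hp).trans (hNp p hp).symm) (hG σ)
    refine ⟨G, ε, fun σ => ⟨hGN σ, ?_⟩, h2, fun g hg => (h3 g hg).2⟩
    have h4 := (hG' R (fun g hg => (h3 g (by
      obtain ⟨x, hx⟩ := hg
      exact ⟨x, by rw [RingHom.comp_apply, hKE] at hx; exact hx⟩)).1) σ).2
    have h5 : deriv (W σ) 0 = deriv (G σ) 0 - deriv (G (R * σ)) 0 := by
      rw [(hW σ).deriv_eq ((hGf σ).isCont.sub (hGf (R * σ)).isCont) (fun n _ => rfl)]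
      exact (hGf σ).isCont.deriv_sub (hGf (R * σ)).isCont
    rw [h1, h5]
    congr 1
    linear_combination h4

end Pool.Agent.StarkRQ.KleinG
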