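import Mathlib

/-!
# Groups with an abelian subgroup of index two

`A` is an abelian subgroup of index two of `G`, and the commutator group has exponent two.
-/

set_option autoImplicit false

open scoped commutatorElement

namespace Pool.Agent.StarkRQ.KleinG

variable {G : Type*} [Group G] {A : Subgroup G}

/-- the commutators are the elements `⁅a, b⁆`, `a ∈ A`. -/
theorem comm_form (hA : A.index = 2) (hAc : ∀ x ∈ A, ∀ y ∈ A, x * y = y * x) {b : G} (hb : b ∉ A)
    (B : Subgroup G) {x y : G} (hx : x ∈ B) (hy : y ∈ B) :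
    ∃ a ∈ A, a ∈ B ∧ ⁅x, y⁆ = ⁅a, b⁆ := by
  have hn : A.Normal := Subgroup.normal_of_index_eq_two hA
  have hi : ∀ g : G, g ∉ A → g * b⁻¹ ∈ A := fun g hg => by
    rw [Subgroup.mul_mem_iff_of_index_two hA]
    exact ⟨fun h => absurd h hg, fun h => absurd (A.inv_mem_iff.1 h) hb⟩
  have hcj : ∀ g ∈ A, b * g * b⁻¹ ∈ A := fun g hg => hn.conj_mem g hg b
  -- `x ∈ A`, `y = a' b`
  have key : ∀ a ∈ A, ∀ a' ∈ A, ⁅a, a' * b⁆ = ⁅a, b⁆ := by
    intro a ha a' ha'
    have h1 := hAc a' ha' _ (hcj a⁻¹ (A.inv_mem ha))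
    rw [commutatorElement_def, commutatorElement_def]
    have h2 : a * (a' * b) * a⁻¹ * (a' * b)⁻¹ = a * (a' * (b * a⁻¹ * b⁻¹)) * a'⁻¹ := by group
    rw [h2, h1]
    group
  by_cases hxA : x ∈ A
  · by_cases hyA : y ∈ A
    · refine ⟨1, A.one_mem, B.one_mem, ?_⟩
      rw [commutatorElement_one_left, commutatorElement_eq_one_iff_mul_comm]
      exact hAc x hxA y hyA
    · refine ⟨x, hxA, hx, ?_⟩
      have h1 := key x hxA (y * b⁻¹) (hi y hyA)
      rwa [inv_mul_cancel_right] at h1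
  · by_cases hyA : y ∈ A
    · refine ⟨y⁻¹, A.inv_mem hyA, B.inv_mem hy, ?_⟩
      have h1 := key y hyA (x * b⁻¹) (hi x hxA)
      rw [inv_mul_cancel_right] at h1
      rw [← commutatorElement_inv, h1, commutatorElement_inv, commutatorElement_def,
        commutatorElement_def, inv_inv]
      have h2 := hAc y⁻¹ (A.inv_mem hyA) _ (hcj y hyA)
      have h3 : y⁻¹ * b * y * b⁻¹ = y⁻¹ * (b * y * b⁻¹) := by group
      rw [h3, h2]
    · obtain ⟨u, hu⟩ : ∃ u, u = x * y⁻¹ := ⟨_, rfl⟩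
      have huA : u ∈ A := by
        rw [hu, Subgroup.mul_mem_iff_of_index_two hA]
        exact ⟨fun h => absurd h hxA, fun h => absurd (A.inv_mem_iff.1 h) hyA⟩
      refine ⟨u, huA, hu ▸ B.mul_mem hx (B.inv_mem hy), ?_⟩
      have hxu : x = u * y := by rw [hu, inv_mul_cancel_right]
      have h1 := key u huA (y * b⁻¹) (hi y hyA)
      rw [inv_mul_cancel_right] at h1
      rw [← h1, hxu, commutatorElement_def, commutatorElement_def]
      group

theorem comm_le (hA : A.index = 2) (hAc : ∀ x ∈ A, ∀ y ∈ A, x * y = y * x) {b : G} (hb : b ∉ A) :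
    commutator G ≤ A := by
  have hn : A.Normal := Subgroup.normal_of_index_eq_two hA
  rw [commutator_def, Subgroup.commutator_le]
  intro x _ y _
  obtain ⟨a, ha, -, h⟩ := comm_form hA hAc hb ⊤ (Subgroup.mem_top x)
    (Subgroup.mem_top y)
  rw [h, commutatorElement_def, show a * b * a⁻¹ * b⁻¹ = a * (b * a⁻¹ * b⁻¹) by group]
  exact A.mul_mem ha (hn.conj_mem _ (A.inv_mem ha) b)

/-- the commutator subgroup is `{⁅a, b⁆ : a ∈ A}`. -/
theorem mem_comm (hA : A.index = 2) (hAc : ∀ x ∈ A, ∀ y ∈ A, x * y = y * x) {b : G} (hb : b ∉ A)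
    (B : Subgroup G) (hbB : b ∈ B) {v : G} : v ∈ ⁅B, B⁆ ↔ ∃ a ∈ A, a ∈ B ∧ v = ⁅a, b⁆ := by
  have hn : A.Normal := Subgroup.normal_of_index_eq_two hA
  have hcj : ∀ g ∈ A, b * g * b⁻¹ ∈ A := fun g hg => hn.conj_mem g hg b
  constructor
  · intro hv
    let S : Subgroup G :=
      { carrier := {v | ∃ a ∈ A, a ∈ B ∧ v = ⁅a, b⁆}
        one_mem' := ⟨1, A.one_mem, B.one_mem, (commutatorElement_one_left b).symm⟩
        mul_mem' := by
          rintro _ _ ⟨a, ha, haB, rfl⟩ ⟨a', ha', haB', rfl⟩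
          refine ⟨a * a', A.mul_mem ha ha', B.mul_mem haB haB', ?_⟩
          rw [commutatorElement_def, commutatorElement_def, commutatorElement_def]
          have h1 := hAc a' ha' _ (hcj a⁻¹ (A.inv_mem ha))
          have h2 := hAc (b * a⁻¹ * b⁻¹) (hcj a⁻¹ (A.inv_mem ha)) _ (hcj a'⁻¹ (A.inv_mem ha'))
          have h3 : a * b * a⁻¹ * b⁻¹ * (a' * b * a'⁻¹ * b⁻¹) =
              a * ((b * a⁻¹ * b⁻¹) * a') * (b * a'⁻¹ * b⁻¹) := by group
          rw [h3, ← h1]
          have h4 : a * (a' * (b * a⁻¹ * b⁻¹)) * (b * a'⁻¹ * b⁻¹) =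
              a * a' * ((b * a⁻¹ * b⁻¹) * (b * a'⁻¹ * b⁻¹)) := by group
          rw [h4, h2]
          group
        inv_mem' := by
          rintro _ ⟨a, ha, haB, rfl⟩
          refine ⟨a⁻¹, A.inv_mem ha, B.inv_mem haB, ?_⟩
          rw [commutatorElement_inv, commutatorElement_def, commutatorElement_def, inv_inv]
          have h2 := hAc a⁻¹ (A.inv_mem ha) _ (hcj a ha)
          have h3 : a⁻¹ * b * a * b⁻¹ = a⁻¹ * (b * a * b⁻¹) := by group
          rw [h3, h2] }
    have h1 : ⁅B, B⁆ ≤ S := by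
      rw [Subgroup.commutator_le]
      intro x hx y hy
      exact comm_form hA hAc hb B hx hy
    exact h1 hv
  · rintro ⟨a, -, haB, rfl⟩
    exact Subgroup.commutator_mem_commutator haB hbB

/-- if the commutator subgroup has exponent two, it is central. -/
theorem comm_central (hA : A.index = 2) (hAc : ∀ x ∈ A, ∀ y ∈ A, x * y = y * x) {b : G} (hb : b ∉ A)
    (hv : ∀ v ∈ commutator G, v * v = 1) {v : G} (h : v ∈ commutator G) (g : G) :
    v * g = g * v := by
  have hn : A.Normal := Subgroup.normal_of_index_eq_two hA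
  have hcj : ∀ g ∈ A, b * g * b⁻¹ ∈ A := fun g hg => hn.conj_mem g hg b
  have hvA := comm_le hA hAc hb h
  -- `v` commutes with `b`
  have hvb : v * b = b * v := by
    obtain ⟨a, ha, -, hab⟩ := (mem_comm hA hAc hb ⊤ (Subgroup.mem_top b)).1 h
    have hbb : b * b ∈ A := Subgroup.mul_self_mem_of_index_two hA b
    have h1 := hAc (b * b) hbb a⁻¹ (A.inv_mem ha)
    have h2 : b * v * b⁻¹ = v⁻¹ := by
      rw [hab, commutatorElement_inv, commutatorElement_def, commutatorElement_def]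
      have h3 : b * (a * b * a⁻¹ * b⁻¹) * b⁻¹ = b * a * b⁻¹ * (b * b * a⁻¹) * b⁻¹ * b⁻¹ := by group
      rw [h3, h1]
      group
    have h3 : v⁻¹ = v := inv_eq_of_mul_eq_one_left (hv v h)
    rw [h3, mul_inv_eq_iff_eq_mul] at h2
    exact h2.symm
  by_cases hg : g ∈ A
  · exact hAc v hvA g hg
  · have h1 : g * b⁻¹ ∈ A := by
      rw [Subgroup.mul_mem_iff_of_index_two hA]
      exact ⟨fun h => absurd h hg, fun h => absurd (A.inv_mem_iff.1 h) hb⟩
    have h2 : g = g * b⁻¹ * b := by rw [inv_mul_cancel_right]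
    rw [h2, ← mul_assoc, hAc v hvA _ h1, mul_assoc, hvb, mul_assoc, mul_assoc, mul_assoc]

/-- `g ↦ ⁅g, b⁆` is a homomorphism. -/
def commHom (b : G) (hc : ∀ v ∈ commutator G, ∀ g : G, v * g = g * v) : G →* G where
  toFun g := ⁅g, b⁆
  map_one' := commutatorElement_one_left b
  map_mul' g h := by
    have h1 : ⁅h, b⁆ ∈ commutator G :=
      Subgroup.commutator_mem_commutator (Subgroup.mem_top _) (Subgroup.mem_top _)
    rw [commutatorElement_def, commutatorElement_def]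
    have h2 := hc _ h1 (g⁻¹)
    rw [commutatorElement_def] at h2
    have h3 : g * h * b * (g * h)⁻¹ * b⁻¹ = g * ((h * b * h⁻¹ * b⁻¹) * (b * g⁻¹ * b⁻¹)) := by group
    have h4 := hc _ h1 (b * g⁻¹ * b⁻¹)
    rw [commutatorElement_def] at h4
    rw [h3, h4, commutatorElement_def]
    group

theorem commHom_apply (b : G) (hc : ∀ v ∈ commutator G, ∀ g : G, v * g = g * v) (g : G) :
    commHom b hc g = ⁅g, b⁆ := rfl

/-- the subgroup `{g : ⁅g, b⁆ ∈ {1, n}}` -/
def nSub (b : G) (hc : ∀ v ∈ commutator G, ∀ g : G, v * g = g * v) (n : G) : Subgroup G :=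
  (Subgroup.zpowers n).comap (commHom b hc)

theorem mem_nSub {b : G} {hc : ∀ v ∈ commutator G, ∀ g : G, v * g = g * v} {n : G}
    (hn : n * n = 1) {g : G} : g ∈ nSub b hc n ↔ ⁅g, b⁆ = 1 ∨ ⁅g, b⁆ = n := by
  rw [nSub, Subgroup.mem_comap, commHom_apply]
  constructor
  · intro h
    obtain ⟨k, hk⟩ := Subgroup.mem_zpowers_iff.1 h
    have h2 : n ^ (2 : ℤ) = 1 := by rw [zpow_two, hn]
    rcases Int.even_or_odd' k with ⟨m, hm | hm⟩
    · left
      rw [← hk, hm, zpow_mul, h2, one_zpow]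
    · right
      rw [← hk, hm, zpow_add, zpow_mul, h2, one_zpow, one_mul, zpow_one]
  · rintro (h | h)
    · rw [h]
      exact Subgroup.one_mem _
    · rw [h]
      exact Subgroup.mem_zpowers n

/-- the range of `commHom` -/
theorem commHom_range (hA : A.index = 2) (hAc : ∀ x ∈ A, ∀ y ∈ A, x * y = y * x) {b : G}
    (hb : b ∉ A) (hc : ∀ v ∈ commutator G, ∀ g : G, v * g = g * v) :
    (commHom b hc).range = commutator G := by
  ext v
  constructor
  · rintro ⟨g, rfl⟩
    exact Subgroup.commutator_mem_commutator (Subgroup.mem_top _) (Subgroup.mem_top _)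
  · intro hv
    obtain ⟨a, -, -, h⟩ := (mem_comm hA hAc hb ⊤ (Subgroup.mem_top b)).1 hv
    exact ⟨a, h.symm⟩

theorem index_nSub [Finite G] (hA : A.index = 2) (hAc : ∀ x ∈ A, ∀ y ∈ A, x * y = y * x) {b : G}
    (hb : b ∉ A) (hc : ∀ v ∈ commutator G, ∀ g : G, v * g = g * v) {n : G} (hn : n * n = 1)
    (hn1 : n ≠ 1) (hnV : n ∈ commutator G) {m : ℕ} (hV : Nat.card (commutator G) = 2 * m) :
    (nSub b hc n).index = m := by
  have h1 : Nat.card (Subgroup.zpowers n) = 2 := by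
    rw [Nat.card_zpowers, orderOf_eq_prime_iff]
    exact ⟨by rw [pow_two, hn], hn1⟩
  have hle : Subgroup.zpowers n ≤ commutator G := by rwa [Subgroup.zpowers_le]
  rw [nSub, Subgroup.index_comap, commHom_range hA hAc hb hc]
  have h2 := Subgroup.card_mul_index ((Subgroup.zpowers n).subgroupOf (commutator G))
  have h3 : Nat.card ((Subgroup.zpowers n).subgroupOf (commutator G)) = 2 := by
    rw [← h1]
    exact Nat.card_congr (Subgroup.subgroupOfEquivOfLe hle).toEquiv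
  rw [h3, hV] at h2
  exact Nat.eq_of_mul_eq_mul_left (by norm_num) h2

theorem comm_nSub (hA : A.index = 2) (hAc : ∀ x ∈ A, ∀ y ∈ A, x * y = y * x) {b : G}
    (hb : b ∉ A) (hc : ∀ v ∈ commutator G, ∀ g : G, v * g = g * v) {n : G} (hn : n * n = 1)
    (hnV : n ∈ commutator G) {v : G} : v ∈ ⁅nSub b hc n, nSub b hc n⁆ ↔ v = 1 ∨ v = n := by
  have hbB : b ∈ nSub b hc n := by
    rw [mem_nSub hn]
    exact Or.inl (commutatorElement_self b)
  rw [mem_comm hA hAc hb _ hbB]
  constructor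
  · rintro ⟨a, -, ha, rfl⟩
    exact (mem_nSub hn).1 ha
  · rintro (rfl | rfl)
    · exact ⟨1, A.one_mem, Subgroup.one_mem _, (commutatorElement_one_left b).symm⟩
    · obtain ⟨a, ha, -, h⟩ := (mem_comm hA hAc hb ⊤ (Subgroup.mem_top b)).1 hnV
      exact ⟨a, ha, (mem_nSub hn).2 (Or.inr h.symm), h⟩

/-- two subgroups for a commutator subgroup of order four -/
theorem exists_two [Finite G] (hA : A.index = 2) (hAc : ∀ x ∈ A, ∀ y ∈ A, x * y = y * x) {b c : G}
    (hb : b ∉ A) (hv : ∀ v ∈ commutator G, v * v = 1) (hV : Nat.card (commutator G) = 4)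
    (hz : ⁅c, b⁆ ≠ 1) :
    ∃ B₁ B₂ : Subgroup G, B₁.index = 2 ∧ B₂.index = 2 ∧ c ∉ B₁ ∧ c ∉ B₂ ∧ b ∈ B₁ ∧ b ∈ B₂ ∧
      Nat.card (⁅B₁, B₁⁆ : Subgroup G) = 2 ∧ Nat.card (⁅B₂, B₂⁆ : Subgroup G) = 2 ∧
      ⁅B₁, B₁⁆ ≠ ⁅B₂, B₂⁆ ∧
      commutator G ≤ B₁ ∧ commutator G ≤ B₂ ∧ ∃ a ∈ A, a ∈ B₁ ∧ a ∉ B₂ := by
  classical
  have hc : ∀ v ∈ commutator G, ∀ g : G, v * g = g * v := fun v h g =>
    comm_central hA hAc hb hv h g
  have hzV : ⁅c, b⁆ ∈ commutator G :=
    Subgroup.commutator_mem_commutator (Subgroup.mem_top _) (Subgroup.mem_top _)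
  generalize hzz : ⁅c, b⁆ = z at hz hzV
  obtain ⟨n, hnV, hn1, hnz⟩ : ∃ n ∈ commutator G, n ≠ 1 ∧ n ≠ z := by
    by_contra! h
    have h1 : ((commutator G : Subgroup G) : Set G) ⊆ {1, z} := by
      intro v hv
      by_cases hv1 : v = 1
      · exact Or.inl hv1
      · exact Or.inr (h v hv hv1)
    have h2 := Set.ncard_le_ncard h1 (Set.toFinite _)
    have h3 : ((commutator G : Subgroup G) : Set G).ncard = 4 := by
      rw [← hV]
      rfl
    have h4 := Set.ncard_insert_le (1 : G) {z}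
    rw [Set.ncard_singleton] at h4
    omega
  have hnn : n * n = 1 := hv n hnV
  have hzz2 : z * z = 1 := hv z hzV
  obtain ⟨n', hn'⟩ : ∃ n', n' = n * z := ⟨_, rfl⟩
  have hn'V : n' ∈ commutator G := hn' ▸ Subgroup.mul_mem _ hnV hzV
  have hnn' : n' * n' = 1 := hv n' hn'V
  have hn'1 : n' ≠ 1 := by
    rintro rfl
    apply hnz
    have h1 : n * z * z = z := by rw [← hn', one_mul]
    rwa [mul_assoc, hzz2, mul_one] at h1
  have hn'z : n' ≠ z := by
    intro h
    rw [hn'] at h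
    exact hn1 (mul_eq_right.1 h)
  have hne : n' ≠ n := by
    intro h
    rw [hn'] at h
    exact hz (mul_eq_left.1 h)
  have hcard : ∀ {m : G}, m * m = 1 → m ≠ 1 → m ∈ commutator G →
      Nat.card (⁅nSub b hc m, nSub b hc m⁆ : Subgroup G) = 2 := by
    intro m h1 h2 h3
    have h4 : ((⁅nSub b hc m, nSub b hc m⁆ : Subgroup G) : Set G) = {1, m} := by
      ext v
      exact comm_nSub hA hAc hb hc h1 h3
    have h5 : ((⁅nSub b hc m, nSub b hc m⁆ : Subgroup G) : Set G).ncard = 2 := by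
      rw [h4]
      exact Set.ncard_pair h2.symm
    rw [← h5]
    rfl
  have hVle : ∀ {m : G}, m * m = 1 → commutator G ≤ nSub b hc m := by
    intro m h1 v hv
    rw [mem_nSub h1]
    left
    rw [commutatorElement_eq_one_iff_mul_comm]
    exact hc v hv b
  obtain ⟨a, haA, -, ha⟩ := (mem_comm hA hAc hb ⊤ (Subgroup.mem_top b)).1 hnV
  refine ⟨nSub b hc n, nSub b hc n', index_nSub hA hAc hb hc hnn hn1 hnV (by rw [hV]),
    index_nSub hA hAc hb hc hnn' hn'1 hn'V (by rw [hV]), ?_, ?_, ?_, ?_, hcard hnn hn1 hnV,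
    hcard hnn' hn'1 hn'V, ?_, hVle hnn, hVle hnn', a, haA, ?_, ?_⟩
  · rw [mem_nSub hnn, hzz]
    rintro (h | h)
    · exact hz h
    · exact hnz h.symm
  · rw [mem_nSub hnn', hzz]
    rintro (h | h)
    · exact hz h
    · exact hn'z h.symm
  · rw [mem_nSub hnn]
    exact Or.inl (commutatorElement_self b)
  · rw [mem_nSub hnn']
    exact Or.inl (commutatorElement_self b)
  · intro h
    have h1 : n ∈ ⁅nSub b hc n, nSub b hc n⁆ := (comm_nSub hA hAc hb hc hnn hnV).2 (Or.inr rfl)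
    rw [h, comm_nSub hA hAc hb hc hnn' hn'V] at h1
    rcases h1 with h1 | h1
    · exact hn1 h1
    · exact hne h1.symm
  · rw [mem_nSub hnn]
    exact Or.inr ha.symm
  · rw [mem_nSub hnn', ← ha]
    rintro (h | h)
    · exact hn1 h
    · exact hne h.symm

/-- an abelian subgroup for a commutator subgroup of order two -/
theorem exists_one [Finite G] (hA : A.index = 2) (hAc : ∀ x ∈ A, ∀ y ∈ A, x * y = y * x) {b c : G}
    (hb : b ∉ A) (hv : ∀ v ∈ commutator G, v * v = 1) (hV : Nat.card (commutator G) = 2)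
    (hz : ⁅c, b⁆ ≠ 1) : ∃ B : Subgroup G, B.index = 2 ∧ c ∉ B ∧ ⁅B, B⁆ = ⊥ := by
  have hc : ∀ v ∈ commutator G, ∀ g : G, v * g = g * v := fun v h g =>
    comm_central hA hAc hb hv h g
  refine ⟨(commHom b hc).ker, ?_, ?_, ?_⟩
  · rw [Subgroup.index_ker, commHom_range hA hAc hb hc, hV]
  · rw [MonoidHom.mem_ker, commHom_apply]
    exact hz
  · have hbB : b ∈ (commHom b hc).ker := by
      rw [MonoidHom.mem_ker, commHom_apply]
      exact commutatorElement_self b
    rw [eq_bot_iff]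
    intro v hv
    obtain ⟨a, -, ha, h⟩ := (mem_comm hA hAc hb _ hbB).1 hv
    rw [Subgroup.mem_bot, h]
    exact ha

/-- the order of the commutator subgroup is not three -/
theorem card_comm (hv : ∀ v ∈ commutator G, v * v = 1) [Finite G]
    (h4 : Nat.card (commutator G) ≤ 4) :
    Nat.card (commutator G) = 1 ∨ Nat.card (commutator G) = 2 ∨ Nat.card (commutator G) = 4 := by
  have h1 : Nat.card (commutator G) ≠ 3 := by
    intro h3
    have : Fact (Nat.Prime 3) := ⟨by norm_num⟩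
    obtain ⟨x, hx⟩ := exists_prime_orderOf_dvd_card' (G := commutator G) 3 (by rw [h3])
    have h2 : x ^ 2 = 1 := by
      rw [pow_two]
      exact Subtype.ext (hv x x.2)
    have h4 := orderOf_dvd_of_pow_eq_one h2
    rw [hx] at h4
    norm_num at h4
  have h2 : 0 < Nat.card (commutator G) := Nat.card_pos
  omega

end Pool.Agent.StarkRQ.KleinG
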